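import Pool.Agent.helper58.DC.Spec1

set_option autoImplicit false

namespace Pool.Agent.helper48.DC

open Pool.Agent.helper58.DC

section CL1

variable {G E A : Type} [Group G] [Group E] [Group A]

theorem CL1_act_inc (X : Extension G E A) (g : G) : X.act (X.inc g) = MulAut.conj g := by
  refine MulEquiv.ext fun h => ?_
  apply X.inc_injective
  rw [X.act_spec, MulAut.conj_apply, map_mul, map_mul, map_inv]

theorem CL1_rel_equiv (hNM : NM_stmt) [Finite G] (p : ℕ) : Equivalence (chainRel (G := G) p) := by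
  refine ⟨?_, ?_, ?_⟩
  · intro C
    refine ⟨1, ?_⟩
    rw [map_one]
    exact (hNM G 1 C.1).2.2.2.2.2.1
  · rintro C D ⟨g, hg⟩
    refine ⟨g⁻¹, ?_⟩
    rw [← hg, ← (hNM G (MulAut.conj g⁻¹) C.1).2.2.2.2.1, ← map_mul, inv_mul_cancel, map_one]
    exact (hNM G 1 C.1).2.2.2.2.2.1
  · rintro C D F ⟨g, hg⟩ ⟨h, hh⟩
    refine ⟨h * g, ?_⟩
    rw [map_mul, (hNM G (MulAut.conj h) C.1).2.2.2.2.1, hg, hh]

theorem CL1_rel_of_mk (hNM : NM_stmt) [Finite G] (p : ℕ)
    (C D : {C : Finset (Subgroup G) // IsRadical p C})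
    (h : Quot.mk (chainRel (G := G) p) C = Quot.mk (chainRel (G := G) p) D) : chainRel p C D := by
  have h1 := Quot.eqvGen_exact h
  rwa [(CL1_rel_equiv hNM p).eqvGen_iff] at h1

theorem CL1_defect (hIF : IF_stmt) [Finite G] (p : ℕ) (C : Finset (Subgroup G)) (ψ : G → ℂ)
    (hψ : ψ ∈ IrrOn (nrm C)) (d : ℤ) : Defect p (nrm C) ψ d ↔ dfc p (C, ψ) = d := by
  obtain ⟨n, hn, h1⟩ := ((hIF G (nrm C)).2 ψ hψ).1
  have h2 : ⌊(ψ 1).re⌋₊ = n := by
    rw [h1]
    simp
  unfold Defect dfc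
  rw [h2]
  constructor
  · rintro ⟨m, hm, rfl⟩
    rw [h1] at hm
    have h3 : n = m := by exact_mod_cast hm
    rw [h3]
  · intro h
    exact ⟨n, h1, h.symm⟩

theorem CL1_stab (hPM : PM_stmt) [Finite G] (X : Extension G E A) (p : ℕ)
    (M : Ideal (integralClosure ℤ ℂ)) (χ : G → ℂ) (hst : Stable X M χ)
    (S : SSet A) (cls : {x // IsPair p M χ x} → S.Z) (hc : IsCls X p M χ S cls)
    (x : {x // IsPair p M χ x}) (a : A) :
    a ∈ (X.stab x.1.1 x.1.2).map X.proj ↔ S.act a (cls x) = cls x := by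
  constructor
  · rintro ⟨e, he, rfl⟩
    exact hc.act e x x (Prod.ext he.1 he.2)
  · intro h
    obtain ⟨e, rfl⟩ := X.proj_surjective a
    have h1 : IsPair p M χ (pairMap (X.act e) x.1) :=
      (hPM G p M χ x.1).2.2.2.2.1 (X.act e) (hst e) x.2
    have h2 := hc.act e x ⟨_, h1⟩ rfl
    rw [h] at h2
    obtain ⟨g, hg⟩ := (hc.eq_iff ⟨_, h1⟩ x).1 h2.symm
    refine ⟨X.inc g * e, ?_, ?_⟩
    · have h3 : pairMap (X.act (X.inc g * e)) x.1 = x.1 := by
        rw [map_mul, (hPM G p M χ x.1).1, CL1_act_inc]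
        exact hg
      exact ⟨congrArg Prod.fst h3, congrArg Prod.snd h3⟩
    · rw [map_mul, (X.exact (X.inc g)).2 ⟨g, rfl⟩, one_mul]

end CL1

theorem CL1 (hPM : PM_stmt) (hNM : NM_stmt) (hSN : SN_stmt) (hIF : IF_stmt) : CL1_stmt := by
  classical
  intro G E A _ _ _ _ X p M χ hχ hst S cls hc d U
  set K : Quot (chainRel (G := G) p) → Type := fun c =>
    {ψ : G → ℂ // ψ ∈ IrrOn (nrm c.out.1) ∧ Defect p (nrm c.out.1) ψ d ∧ Induces M ψ χ ∧
      (X.stab c.out.1 ψ).map X.proj = U} with hK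
  have hfin : ∀ c, Finite (K c) := by
    intro c
    have h1 := (hIF G (nrm c.out.1)).1
    have h2 : Set.Finite {ψ : G → ℂ | ψ ∈ IrrOn (nrm c.out.1) ∧ Defect p (nrm c.out.1) ψ d ∧
        Induces M ψ χ ∧ (X.stab c.out.1 ψ).map X.proj = U} := h1.subset fun ψ h => h.1
    exact h2.to_subtype
  have hQ : Finite (Quot (chainRel (G := G) p)) := inferInstance
  have hSf := S.fin
  have : Fintype (Quot (chainRel (G := G) p)) := Fintype.ofFinite _
  have : ∀ c, Fintype (K c) := fun c => Fintype.ofFinite _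
  have : Fintype S.Z := Fintype.ofFinite _
  let pr : (Σ c, K c) → {x // IsPair p M χ x} := fun x =>
    ⟨(x.1.out.1, x.2.1), x.1.out.2, x.2.2.1, x.2.2.2.2.1⟩
  let good : S.Z → Prop := fun z => S.dfc z = d ∧ (∀ a, a ∈ U ↔ S.act a z = z)
  have hgood : ∀ x, good (cls (pr x)) := by
    intro x
    refine ⟨?_, ?_⟩
    · rw [hc.dfc]
      exact (CL1_defect hIF p _ _ x.2.2.1 d).1 x.2.2.2.1
    · intro a
      rw [← CL1_stab hPM X p M χ hst S cls hc (pr x) a]
      have h1 : (X.stab (pr x).1.1 (pr x).1.2).map X.proj = U := x.2.2.2.2.2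
      rw [h1]
  let Φ : (Σ c, K c) → {z : S.Z // good z} := fun x => ⟨cls (pr x), hgood x⟩
  have hΦ : Function.Bijective Φ := by
    constructor
    · rintro x y h
      have h1 : cls (pr x) = cls (pr y) := congrArg Subtype.val h
      obtain ⟨g, hg⟩ := (hc.eq_iff _ _).1 h1
      have h2 : chainMap (MulAut.conj g) x.1.out.1 = y.1.out.1 := congrArg Prod.fst hg
      have h3 : x.1 = y.1 := by
        have := Quot.sound (r := chainRel (G := G) p) (a := x.1.out) (b := y.1.out) ⟨g, h2⟩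
        rwa [Quot.out_eq, Quot.out_eq] at this
      obtain ⟨c, ψ⟩ := x
      obtain ⟨c', φ⟩ := y
      obtain rfl : c = c' := h3
      have h4 : g ∈ nrm c.out.1 := (hSN G c.out.1 c.out.2.chain g).1 h2
      have h5 := (hPM G p M χ (pr ⟨c, ψ⟩).1).2.2.2.2.2.2.1 (pr ⟨c, ψ⟩).2 g h4
      have h6 : (pr ⟨c, ψ⟩).1 = (pr ⟨c, φ⟩).1 := h5.symm.trans hg
      have h7 : ψ.1 = φ.1 := congrArg Prod.snd h6
      rw [Subtype.ext h7]
    · rintro ⟨z, hz⟩
      obtain ⟨x, rfl⟩ := hc.surj z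
      let c : Quot (chainRel (G := G) p) := Quot.mk _ ⟨x.1.1, x.2.1⟩
      obtain ⟨g, hg⟩ := CL1_rel_of_mk hNM p ⟨x.1.1, x.2.1⟩ c.out (Quot.out_eq c).symm
      have hy : IsPair p M χ (pairMap (MulAut.conj g) x.1) :=
        (hPM G p M χ x.1).2.2.2.2.2.1 x.2 g
      have hcl : cls ⟨_, hy⟩ = cls x := ((hc.eq_iff x ⟨_, hy⟩).2 ⟨g, rfl⟩).symm
      have hy' : IsPair p M χ (c.out.1, funMap (MulAut.conj g) x.1.2) := by
        have : (c.out.1, funMap (MulAut.conj g) x.1.2) = pairMap (MulAut.conj g) x.1 :=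
          Prod.ext hg.symm rfl
        rw [this]
        exact hy
      have hyy : (⟨_, hy'⟩ : {x // IsPair p M χ x}) = ⟨_, hy⟩ := by
        apply Subtype.ext
        exact Prod.ext hg.symm rfl
      have hcl' : cls ⟨_, hy'⟩ = cls x := by rw [hyy, hcl]
      refine ⟨⟨c, ⟨funMap (MulAut.conj g) x.1.2, hy'.2.1, ?_, hy'.2.2, ?_⟩⟩, ?_⟩
      · rw [CL1_defect hIF p _ _ hy'.2.1]
        have h1 := hc.dfc ⟨_, hy'⟩
        rw [hcl', hz.1] at h1
        exact h1.symm
      · ext a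
        have h1 := CL1_stab hPM X p M χ hst S cls hc ⟨_, hy'⟩ a
        rw [hcl'] at h1
        exact h1.trans (hz.2 a).symm
      · apply Subtype.ext
        exact hcl'
  have h1 : altSum X p M χ d U = ∑ x : Σ c, K c, (-1 : ℤ) ^ (x.1.out.1.card - 1) := by
    unfold altSum
    rw [finsum_eq_sum_of_fintype, Fintype.sum_sigma]
    refine Finset.sum_congr rfl fun c _ => ?_
    have h2 : kC X p M χ d U c.out.1 = Fintype.card (K c) := by
      unfold kC
      rw [← Nat.card_eq_fintype_card]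
    rw [h2]
    have h3 : ∑ _y : K c, (-1 : ℤ) ^ (c.out.1.card - 1) =
        (-1 : ℤ) ^ (c.out.1.card - 1) * (Fintype.card (K c) : ℤ) := by
      rw [Finset.sum_const, Finset.card_univ, nsmul_eq_mul, mul_comm]
    exact h3.symm
  have h2 : S.num d U = ∑ z : {z : S.Z // good z}, (-1 : ℤ) ^ S.len z.1 := by
    unfold SSet.num
    rw [finsum_eq_sum_of_fintype, ← Finset.sum_filter,
      ← Finset.sum_subtype (Finset.univ.filter good) (fun z => by simp)
        (fun z => (-1 : ℤ) ^ S.len z)]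
  rw [h1, h2]
  refine Fintype.sum_bijective Φ hΦ _ _ fun x => ?_
  have h3 : S.len (Φ x).1 = x.1.out.1.card - 1 := hc.len (pr x)
  rw [h3]

end Pool.Agent.helper48.DC
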