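import Pool.Agent.helper58.DC.Spec2

set_option autoImplicit false

namespace Pool.Agent.helper48.DC

open Pool.Agent.helper58.DC

/-- the stabiliser of an element -/
def MB_st {A : Type} [Group A] (S : SSet A) (z : S.Z) : Subgroup A where
  carrier := {a | S.act a z = z}
  mul_mem' := by
    intro a b ha hb
    have ha' : S.act a z = z := ha
    have hb' : S.act b z = z := hb
    show S.act (a * b) z = z
    rw [map_mul, Equiv.Perm.mul_apply, hb', ha']
  one_mem' := by
    show S.act 1 z = z
    rw [map_one, Equiv.Perm.one_apply]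
  inv_mem' := by
    intro a ha
    have ha' : S.act a z = z := ha
    show S.act a⁻¹ z = z
    rw [map_inv, Equiv.Perm.inv_eq_iff_eq]
    exact ha'.symm

theorem MB_mem {A : Type} [Group A] (S : SSet A) (z : S.Z) (a : A) :
    a ∈ MB_st S z ↔ S.act a z = z := Iff.rfl

theorem MB : MB_stmt := by
  classical
  intro A _ _ S d U
  have hSf := S.fin
  have : Fintype S.Z := Fintype.ofFinite _
  have : Fintype {V : Subgroup A // U ≤ V} := Fintype.ofFinite _
  unfold SSet.fix SSet.num
  rw [finsum_eq_sum_of_fintype, finsum_eq_sum_of_fintype]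
  simp only [finsum_eq_sum_of_fintype]
  rw [Finset.sum_comm]
  refine Finset.sum_congr rfl fun z _ => ?_
  by_cases hz : S.dfc z = d ∧ ∀ a ∈ U, S.act a z = z
  · rw [if_pos hz]
    have hU : U ≤ MB_st S z := fun a ha => hz.2 a ha
    rw [Finset.sum_eq_single ⟨MB_st S z, hU⟩]
    · rw [if_pos ⟨hz.1, fun a => MB_mem S z a⟩]
    · intro V _ hV
      rw [if_neg]
      rintro ⟨-, h⟩
      apply hV
      apply Subtype.ext
      ext a
      exact (h a).trans (MB_mem S z a).symm
    · intro h
      exact absurd (Finset.mem_univ _) h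
  · rw [if_neg hz, eq_comm]
    apply Finset.sum_eq_zero
    intro V _
    rw [if_neg]
    rintro ⟨h1, h2⟩
    exact hz ⟨h1, fun a ha => (h2 a).1 (V.2 ha)⟩

end Pool.Agent.helper48.DC
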